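import Pool.Agent.W209.KT.Stm

set_option autoImplicit false

open Filter MeasureTheory

namespace Pool.Agent.W452.KT

open Pool.Agent.W209.KT

lemma nrm_le (x : ℝ) (n : ℤ) : nrm x ≤ |x - n| := round_le x n

lemma nrm_tri (z w : ℝ) : nrm z ≤ nrm w + |z - w| := by
  have h := nrm_le z (round w)
  have h2 : |z - (round w : ℝ)| ≤ |z - w| + |w - (round w : ℝ)| := abs_sub_le _ _ _
  unfold nrm at h ⊢
  linarith

lemma nrm_sub (x y : ℝ) : nrm (x - y) ≤ nrm x + nrm y := by
  have h := nrm_le (x - y) (round x - round y)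
  have h2 : |x - y - ((round x - round y : ℤ) : ℝ)| ≤ nrm x + nrm y := by
    unfold nrm
    have e : x - y - ((round x - round y : ℤ) : ℝ) = (x - round x) - (y - round y) := by
      push_cast; ring
    rw [e]
    exact abs_sub _ _
  linarith

open Classical in
/-- the last coordinates -/
noncomputable def Yset (A : Fin 2 → Fin 11 → ℝ) (M : ℕ) (ψ : ℝ) (q : ℕ) (p' : Fin 9 → ℤ) :
    Finset ℤ :=
  (Finset.Icc (-(M : ℤ)) M).filter (fun y => ∀ j : Fin 2,
    nrm ((A j 0 * q + ∑ l : Fin 9, A j l.castSucc.succ * p' l) + A j 10 * y) ≤ 11 * ψ)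

lemma Yset_card (A : Fin 2 → Fin 11 → ℝ) (M L : ℕ) (hL : 2 * M ≤ L) (ψ : ℝ) (q : ℕ)
    (p' : Fin 9 → ℤ) : (Yset A M ψ q p').card ≤ cnt (fun j => A j 10) L (22 * ψ) := by
  rcases (Yset A M ψ q p').eq_empty_or_nonempty with h | ⟨y0, hy0⟩
  · rw [h]; simp
  · unfold cnt
    rw [← Set.ncard_coe_finset]
    have hfin : ({y : ℤ | |y| ≤ (L : ℤ) ∧ ∀ j, nrm ((fun j => A j 10) j * y) ≤ 22 * ψ} :
        Set ℤ).Finite := by
      apply (Set.finite_Icc (-(L : ℤ)) L).subset
      intro y hy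
      exact abs_le.1 hy.1
    refine Set.ncard_le_ncard_of_injOn (fun y => y - y0) ?_ ?_ hfin
    · intro y hy
      simp only [Yset, Finset.coe_filter, Finset.mem_Icc, Set.mem_ofPred_eq, Finset.mem_filter]
        at hy hy0
      obtain ⟨⟨h1, h2⟩, h3⟩ := hy
      obtain ⟨⟨h4, h5⟩, h6⟩ := hy0
      refine ⟨?_, ?_⟩
      · rw [abs_le]
        constructor <;> · push_cast at *; omega
      · intro j
        have := nrm_sub ((A j 0 * q + ∑ l : Fin 9, A j l.castSucc.succ * p' l) + A j 10 * y)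
          ((A j 0 * q + ∑ l : Fin 9, A j l.castSucc.succ * p' l) + A j 10 * y0)
        have e : ((A j 0 * q + ∑ l : Fin 9, A j l.castSucc.succ * p' l) + A j 10 * y) -
          ((A j 0 * q + ∑ l : Fin 9, A j l.castSucc.succ * p' l) + A j 10 * y0)
          = A j 10 * ((y - y0 : ℤ) : ℝ) := by push_cast; ring
        rw [e] at this
        have a1 := h3 j
        have a2 := h6 j
        show nrm (A j 10 * ((y - y0 : ℤ) : ℝ)) ≤ 22 * ψ
        linarith
    · intro y _ z _ hyz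
      simpa using hyz

/-- boxes -/
def Box (ψ : ℝ) (q : ℕ) (P : Fin 10 → ℤ) : Set (Fin 10 → ℝ) :=
  Set.Icc (fun l => (P l : ℝ) / q - ψ / q) (fun l => (P l : ℝ) / q + ψ / q)

lemma Box_vol (ψ : ℝ) (hψ : 0 < ψ) (q Q : ℕ) (hQ : 0 < Q) (hq : Q ≤ q) (P : Fin 10 → ℤ) :
    volume (Box ψ q P) ≤ ENNReal.ofReal ((2 * ψ / Q) ^ 10) := by
  unfold Box
  rw [Real.volume_Icc_pi]
  have hQ' : (0 : ℝ) < Q := by exact_mod_cast hQ
  have hqq : (Q : ℝ) ≤ q := by exact_mod_cast hq
  have hb : ∀ l : Fin 10, ENNReal.ofReal ((P l : ℝ) / q + ψ / q - ((P l : ℝ) / q - ψ / q))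
      ≤ ENNReal.ofReal (2 * ψ / Q) := by
    intro l
    apply ENNReal.ofReal_le_ofReal
    have : (P l : ℝ) / q + ψ / q - ((P l : ℝ) / q - ψ / q) = 2 * ψ / q := by ring
    rw [this]
    exact div_le_div_of_nonneg_left (by positivity) hQ' hqq
  calc ∏ l : Fin 10, ENNReal.ofReal ((P l : ℝ) / q + ψ / q - ((P l : ℝ) / q - ψ / q))
      ≤ ∏ _l : Fin 10, ENNReal.ofReal (2 * ψ / Q) := Finset.prod_le_prod' (fun l _ => hb l)
    _ = ENNReal.ofReal ((2 * ψ / Q) ^ 10) := by
      rw [ENNReal.ofReal_pow (by positivity)]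
      simp

theorem vol : S_vol := by
  intro A hA R i ψ hR hψ hψ1
  obtain ⟨Q, hQd⟩ : ∃ Q : ℕ, Q = 2 ^ i := ⟨_, rfl⟩
  have hQ : 0 < Q := by rw [hQd]; positivity
  have hQ2 : 2 ^ (i + 1) = 2 * Q := by rw [hQd, pow_succ]; ring
  rw [← hQd, hQ2]
  obtain ⟨M, hM⟩ : ∃ M : ℕ, M = 3 * Q * R := ⟨_, rfl⟩
  set FP : Finset (Fin 9 → ℤ) := Fintype.piFinset (fun _ => Finset.Icc (-(M : ℤ)) M) with hFP
  have hcov : {x : Fin 10 → ℝ | (∀ l, |x l| ≤ R) ∧ ∃ q : ℕ, Q ≤ q ∧
      q < 2 * Q ∧ ∀ j, nrm (q * pt A x j) < ψ} ⊆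
      ⋃ q ∈ Finset.Ico Q (2 * Q), ⋃ p' ∈ FP, ⋃ y ∈ Yset A M ψ q p',
        Box ψ q (Fin.snoc p' y) := by
    rintro x ⟨hx, q, hq1, hq2, hj⟩
    have hq0 : 0 < q := lt_of_lt_of_le hQ hq1
    have hq0' : (0 : ℝ) < q := by exact_mod_cast hq0
    obtain ⟨P, hP⟩ : ∃ P : Fin 10 → ℤ, P = fun l => round ((q : ℝ) * x l) := ⟨_, rfl⟩
    have hPl : ∀ l, |(q : ℝ) * x l - P l| < ψ := by
      intro l
      have := hj (Fin.castAdd 2 l)
      have e : pt A x (Fin.castAdd 2 l) = x l := Fin.append_left _ _ _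
      rw [e] at this
      rw [hP]
      exact this
    have hPb : ∀ l, P l ∈ Finset.Icc (-(M : ℤ)) M := by
      intro l
      have h1 := hPl l
      have h2 : |(q : ℝ) * x l| ≤ 2 * Q * R := by
        rw [abs_mul, abs_of_pos hq0']
        have : (q : ℝ) ≤ 2 * Q := by exact_mod_cast hq2.le
        exact mul_le_mul this (hx l) (abs_nonneg _) (by positivity)
      have h3 : |(P l : ℝ)| ≤ M := by
        have h4 : |(P l : ℝ)| ≤ |(q : ℝ) * x l| + |(q : ℝ) * x l - P l| := by
          have := abs_sub_abs_le_abs_sub (P l : ℝ) ((q : ℝ) * x l)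
          rw [abs_sub_comm] at this
          linarith
        have h5 : (1 : ℝ) ≤ Q * R := by
          have : 1 ≤ Q * R := Nat.one_le_iff_ne_zero.2 (Nat.mul_ne_zero (by omega) (by omega))
          exact_mod_cast this
        have h6 : (M : ℝ) = 3 * Q * R := by rw [hM]; push_cast; ring
        rw [h6]
        linarith
      rw [Finset.mem_Icc]
      have := abs_le.1 h3
      constructor
      · exact_mod_cast this.1
      · exact_mod_cast this.2
    simp only [Set.mem_iUnion]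
    refine ⟨q, Finset.mem_Ico.2 ⟨hq1, hq2⟩, Fin.init P, ?_, P (Fin.last 9), ?_, ?_⟩
    · rw [hFP, Fintype.mem_piFinset]
      intro l
      exact hPb _
    · unfold Yset
      rw [Finset.mem_filter]
      refine ⟨hPb _, ?_⟩
      intro j
      have h1 := hj (Fin.natAdd 10 j)
      have e : pt A x (Fin.natAdd 10 j) = aff A j x := Fin.append_right _ _ _
      rw [e] at h1
      have h2 := nrm_tri ((A j 0 * q + ∑ l : Fin 9, A j l.castSucc.succ * (Fin.init P l : ℤ))
        + A j 10 * (P (Fin.last 9))) (q * aff A j x)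
      have e2 : ((A j 0 * q + ∑ l : Fin 9, A j l.castSucc.succ * ((Fin.init P l : ℤ) : ℝ))
        + A j 10 * (P (Fin.last 9))) - (q * aff A j x)
        = ∑ l : Fin 10, A j l.succ * ((P l : ℝ) - q * x l) := by
        unfold aff
        rw [mul_add, Finset.mul_sum]
        have e3 : ∑ l : Fin 10, A j l.succ * ((P l : ℝ) - q * x l)
            = ∑ l : Fin 10, A j l.succ * (P l : ℝ) - ∑ l : Fin 10, (q : ℝ) * (A j l.succ * x l) := by
          rw [← Finset.sum_sub_distrib]
          exact Finset.sum_congr rfl (fun l _ => by ring)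
        rw [e3, Fin.sum_univ_castSucc (fun l : Fin 10 => A j l.succ * (P l : ℝ))]
        have e4 : (Fin.last 9).succ = (10 : Fin 11) := rfl
        rw [e4]
        simp only [Fin.init]
        ring
      rw [e2] at h2
      have h3 : |∑ l : Fin 10, A j l.succ * ((P l : ℝ) - q * x l)| ≤ 10 * ψ := by
        calc |∑ l : Fin 10, A j l.succ * ((P l : ℝ) - q * x l)|
            ≤ ∑ l : Fin 10, |A j l.succ * ((P l : ℝ) - q * x l)| :=
              Finset.abs_sum_le_sum_abs _ _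
          _ ≤ ∑ _l : Fin 10, ψ := by
              apply Finset.sum_le_sum
              intro l _
              rw [abs_mul, abs_sub_comm]
              calc |A j l.succ| * |(q : ℝ) * x l - P l| ≤ 1 * ψ :=
                    mul_le_mul (hA j _) (hPl l).le (abs_nonneg _) (by norm_num)
                _ = ψ := one_mul _
          _ = 10 * ψ := by simp
      linarith
    · rw [Fin.snoc_init_self]
      constructor
      · intro l
        have := abs_lt.1 (hPl l)
        show (P l : ℝ) / q - ψ / q ≤ x l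
        rw [← sub_div, div_le_iff₀ hq0']
        linarith
      · intro l
        have := abs_lt.1 (hPl l)
        show x l ≤ (P l : ℝ) / q + ψ / q
        rw [← add_div, le_div_iff₀ hq0']
        linarith
  refine (measure_mono hcov).trans ?_
  obtain ⟨N, hN⟩ : ∃ N : ℕ, N = cnt (fun j => A j 10) (8 * R * Q) (22 * ψ) := ⟨_, rfl⟩
  rw [← hN]
  obtain ⟨c, hc⟩ : ∃ c : ENNReal, c = ENNReal.ofReal ((2 * ψ / Q) ^ 10) := ⟨_, rfl⟩
  have hcard : FP.card = (2 * M + 1) ^ 9 := by
    rw [hFP, Fintype.card_piFinset]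
    simp only [Int.card_Icc, Finset.prod_const, Finset.card_univ, Fintype.card_fin]
    congr 1
    omega
  have hsum : volume (⋃ q ∈ Finset.Ico Q (2 * Q), ⋃ p' ∈ FP, ⋃ y ∈ Yset A M ψ q p',
        Box ψ q (Fin.snoc p' y : Fin 10 → ℤ)) ≤ (Q : ENNReal) * (((2 * M + 1) ^ 9 : ℕ) : ENNReal)
          * (N * c) := by
    calc volume (⋃ q ∈ Finset.Ico Q (2 * Q), ⋃ p' ∈ FP, ⋃ y ∈ Yset A M ψ q p',
        Box ψ q (Fin.snoc p' y : Fin 10 → ℤ))
        ≤ ∑ q ∈ Finset.Ico Q (2 * Q), volume (⋃ p' ∈ FP, ⋃ y ∈ Yset A M ψ q p',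
          Box ψ q (Fin.snoc p' y : Fin 10 → ℤ)) := measure_biUnion_finset_le _ _
      _ ≤ ∑ q ∈ Finset.Ico Q (2 * Q), ∑ p' ∈ FP, ((N : ENNReal) * c) := by
          apply Finset.sum_le_sum
          intro q hq
          refine (measure_biUnion_finset_le _ _).trans ?_
          apply Finset.sum_le_sum
          intro p' _
          refine (measure_biUnion_finset_le _ _).trans ?_
          have hle : ∀ y ∈ Yset A M ψ q p', volume (Box ψ q (Fin.snoc p' y : Fin 10 → ℤ)) ≤ c := by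
            intro y _
            rw [hc]
            exact Box_vol ψ hψ q Q hQ (Finset.mem_Ico.1 hq).1 _
          refine (Finset.sum_le_card_nsmul _ _ _ hle).trans ?_
          rw [nsmul_eq_mul]
          apply mul_le_mul_left
          have := Yset_card A M (8 * R * Q) (by rw [hM]; nlinarith) ψ q p'
          rw [← hN] at this
          exact_mod_cast this
      _ = (Q : ENNReal) * (((2 * M + 1) ^ 9 : ℕ) : ENNReal) * (N * c) := by
          rw [Finset.sum_const, Finset.sum_const, hcard, Nat.card_Ico, nsmul_eq_mul,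
            nsmul_eq_mul]
          have : 2 * Q - Q = Q := by omega
          rw [this, mul_assoc]
  refine hsum.trans ?_
  have hQr : (0 : ℝ) < Q := by exact_mod_cast hQ
  have hRr : (1 : ℝ) ≤ R := by exact_mod_cast hR
  have e1 : (Q : ENNReal) * (((2 * M + 1) ^ 9 : ℕ) : ENNReal) * (N * c)
      = ENNReal.ofReal ((Q : ℝ) * (2 * M + 1) ^ 9 * (N * (2 * ψ / Q) ^ 10)) := by
    rw [hc, ENNReal.ofReal_mul (by positivity), ENNReal.ofReal_mul (by positivity),
      ENNReal.ofReal_mul (by positivity), ENNReal.ofReal_natCast, ENNReal.ofReal_natCast]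
    congr 2
    rw [← ENNReal.ofReal_natCast]
    push_cast
    rfl
  rw [e1]
  apply ENNReal.ofReal_le_ofReal
  have hM7 : (2 * (M : ℝ) + 1) ≤ 7 * (Q * R) := by
    have h6 : (M : ℝ) = 3 * Q * R := by rw [hM]; push_cast; ring
    have h5 : (1 : ℝ) ≤ Q * R := by
      have : 1 ≤ Q * R := Nat.one_le_iff_ne_zero.2 (Nat.mul_ne_zero (by omega) (by omega))
      exact_mod_cast this
    rw [h6]; linarith
  have h9 : (2 * (M : ℝ) + 1) ^ 9 ≤ (7 * (Q * R)) ^ 9 :=
    pow_le_pow_left₀ (by positivity) hM7 9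
  calc (Q : ℝ) * (2 * M + 1) ^ 9 * (N * (2 * ψ / Q) ^ 10)
      ≤ (Q : ℝ) * (7 * (Q * R)) ^ 9 * (N * (2 * ψ / Q) ^ 10) := by
        apply mul_le_mul_of_nonneg_right _ (by positivity)
        exact mul_le_mul_of_nonneg_left h9 hQr.le
    _ = (7 ^ 9 * 2 ^ 10) * (R : ℝ) ^ 9 * (ψ ^ 10 * N) := by
        field_simp
    _ ≤ (100 : ℝ) ^ 10 * (R : ℝ) ^ 10 * (ψ ^ 10 * N) := by
        apply mul_le_mul_of_nonneg_right _ (by positivity)
        have : (R : ℝ) ^ 9 ≤ (R : ℝ) ^ 10 := pow_le_pow_right₀ hRr (by norm_num)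
        apply mul_le_mul _ this (by positivity) (by positivity)
        norm_num
    _ = (100 * R) ^ 10 * ψ ^ 10 * N := by ring

end Pool.Agent.W452.KT
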